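import Pool.Agent.LibSGR.Main
import Pool.Agent.LibSGR.Positive

set_option autoImplicit false

namespace Pool.Agent.Results.MP_311bfa_al.Characterization

universe u

/-- A monoid `G` is residually finite if and only if for every Hausdorff topological ring `R`
there is a Hausdorff ring topology on the semigroup ring `R[G]` inducing the topology of `R`. -/
theorem result (G : Type u) [Monoid G] :
    (∀ g h : G, g ≠ h → ∃ c : Con G, Finite c.Quotient ∧ ¬ c g h) ↔
      ∀ (R : Type u) [Ring R] [τ₀ : TopologicalSpace R] [IsTopologicalRing R] [T2Space R],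
        ∃ τ : TopologicalSpace (MonoidAlgebra R G),
          IsTopologicalRing (MonoidAlgebra R G) ∧ T2Space (MonoidAlgebra R G) ∧
            τ.induced (fun r : R => MonoidAlgebra.single (1 : G) r) = τ₀ := by
  constructor
  · intro hG R _ _ _ _
    exact Pool.Agent.LibSGR.exists_extension_of_residuallyFinite hG R
  · intro hext g h hgh
    by_contra hcon
    push Not at hcon
    obtain ⟨R, hR, τ₀, h1, h2, h3⟩ :=
      Pool.Agent.LibSGR.exists_ring_of_not_separated g h hgh hcon
    obtain ⟨τ, hτ, hT, hind⟩ := hext R
    refine h3 τ hτ hT ?_
    rw [continuous_iff_le_induced]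
    exact hind.ge

end Pool.Agent.Results.MP_311bfa_al.Characterization
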