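import Pool.Agent.LibSGR.Main

set_option autoImplicit false

namespace Pool.Agent.Results.MP_311bfa_al.NoExtension

/-- There are a Hausdorff topological ring `R` (with identity) and an abelian group `G` such that
no Hausdorff ring topology on the group ring `R[G]` induces the given topology on `R`. -/
theorem result :
    ∃ (R : Type) (_ : Ring R) (τ₀ : TopologicalSpace R) (_ : IsTopologicalRing R) (_ : T2Space R)
      (G : Type) (_ : CommGroup G),
      ¬ ∃ τ : TopologicalSpace (MonoidAlgebra R G),
        IsTopologicalRing (MonoidAlgebra R G) ∧ T2Space (MonoidAlgebra R G) ∧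
          τ.induced (fun r : R => MonoidAlgebra.single (1 : G) r) = τ₀ := by
  have hsep : ∀ c : Con (Multiplicative ℚ), Finite c.Quotient →
      c (Multiplicative.ofAdd (1 : ℚ)) 1 := by
    intro c hc
    let n := Nat.card c.Quotient
    have hn : (n : ℚ) ≠ 0 := by
      have : 0 < n := Nat.card_pos
      exact_mod_cast this.ne'
    have h1 : (Multiplicative.ofAdd (1 / (n : ℚ))) ^ n = Multiplicative.ofAdd (1 : ℚ) := by
      rw [← ofAdd_nsmul, nsmul_eq_mul]
      congr 1
      field_simp
    have h2 : ((Multiplicative.ofAdd (1 / (n : ℚ)) : Multiplicative ℚ) : c.Quotient) ^ n = 1 :=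
      pow_card_eq_one'
    have h3 : ((Multiplicative.ofAdd (1 : ℚ) : Multiplicative ℚ) : c.Quotient) =
        ((1 : Multiplicative ℚ) : c.Quotient) := by
      rw [← h1]
      exact h2
    exact (Con.eq _).mp h3
  have hne : Multiplicative.ofAdd (1 : ℚ) ≠ 1 := by
    intro h
    have h' : (1 : ℚ) = 0 := h
    exact one_ne_zero h'
  obtain ⟨R, hR, τ₀, h1, h2, h3⟩ :=
    Pool.Agent.LibSGR.exists_ring_of_not_separated (Multiplicative.ofAdd (1 : ℚ)) 1 hne hsep
  refine ⟨R, hR, τ₀, h1, h2, Multiplicative ℚ, inferInstance, ?_⟩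
  rintro ⟨τ, hτ, hT, hind⟩
  refine h3 τ hτ hT ?_
  rw [continuous_iff_le_induced]
  exact hind.ge

end Pool.Agent.Results.MP_311bfa_al.NoExtension
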